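import Mathlib

/-!
# Recycled exchanges in rainbow matchings: the closed systems

`E` is the set of edges, `ρ`, `κ`, `γ` the row, the colour and the column of an edge.
-/

set_option autoImplicit false

open Finset

namespace Pool.Agent.RB69

open scoped Classical

variable {E R K C : Type}

/-- A rainbow matching: rows, colours and columns of its edges are distinct. -/
def IsM (ρ : E → R) (κ : E → K) (γ : E → C) (T : Finset E) : Prop :=
  Set.InjOn ρ (T : Set E) ∧ Set.InjOn κ (T : Set E) ∧ Set.InjOn γ (T : Set E)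

/-- A rainbow matching of maximal size. -/
def Mx (ρ : E → R) (κ : E → K) (γ : E → C) (T : Finset E) : Prop :=
  IsM ρ κ γ T ∧ ∀ T' : Finset E, IsM ρ κ γ T' → T'.card ≤ T.card

/-- A free row outside `A` takes, with an unused colour outside `B`, the column of an edge `e'`. -/
def Step (ρ : E → R) (κ : E → K) (γ : E → C) (A : Finset R) (B : Finset K) (T T' : Finset E) :
    Prop :=
  ∃ e e' : E, ρ e ∉ T.image ρ ∧ ρ e ∉ A ∧ κ e ∉ T.image κ ∧ κ e ∉ B ∧ e' ∈ T ∧ γ e' = γ e ∧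
    T' = insert e (T.erase e')

/-- Reachable by recycled exchanges. -/
def Rc (ρ : E → R) (κ : E → K) (γ : E → C) (A : Finset R) (B : Finset K) (T T' : Finset E) :
    Prop :=
  Relation.ReflTransGen (Step ρ κ γ A B) T T'

/-- The rows of `A` are free and the colours of `B` are unused. -/
def Fr (ρ : E → R) (κ : E → K) (A : Finset R) (B : Finset K) (T : Finset E) : Prop :=
  (∀ e ∈ T, ρ e ∉ A) ∧ ∀ e ∈ T, κ e ∉ B

/-- The edges which are never touched. -/
noncomputable def core (ρ : E → R) (κ : E → K) (γ : E → C) (A : Finset R) (B : Finset K)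
    (T : Finset E) : Finset E :=
  T.filter fun e => ∀ T', Rc ρ κ γ A B T T' → e ∈ T'

variable {ρ : E → R} {κ : E → K} {γ : E → C} {A : Finset R} {B : Finset K} {T T' T'' : Finset E}

theorem step_card (h : Step ρ κ γ A B T T') : T'.card = T.card := by
  obtain ⟨e, e', h1, _, _, _, h5, _, rfl⟩ := h
  have he : e ∉ T.erase e' := fun h => h1 (mem_image_of_mem ρ (mem_of_mem_erase h))
  rw [card_insert_of_notMem he, card_erase_of_mem h5]
  have := card_pos.2 ⟨e', h5⟩
  omega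

theorem step_isM (hT : IsM ρ κ γ T) (h : Step ρ κ γ A B T T') : IsM ρ κ γ T' := by
  obtain ⟨e, e', h1, _, h3, _, h5, h6, rfl⟩ := h
  obtain ⟨a1, a2, a3⟩ := hT
  have key : ∀ {X : Type} (φ : E → X), Set.InjOn φ (T : Set E) →
      (∀ x ∈ T, x ≠ e' → φ x ≠ φ e) → Set.InjOn φ ((insert e (T.erase e') : Finset E) : Set E) := by
    intro X φ hφ hne x hx y hy hxy
    simp only [coe_insert, coe_erase, Set.mem_insert_iff, Set.mem_sdiff, Set.mem_singleton_iff,
      mem_coe] at hx hy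
    rcases hx with rfl | ⟨hx, hx'⟩ <;> rcases hy with rfl | ⟨hy, hy'⟩
    · rfl
    · exact absurd hxy.symm (hne y hy hy')
    · exact absurd hxy (hne x hx hx')
    · exact hφ hx hy hxy
  refine ⟨key ρ a1 ?_, key κ a2 ?_, key γ a3 ?_⟩
  · intro x hx _ hxe
    exact h1 (hxe ▸ mem_image_of_mem ρ hx)
  · intro x hx _ hxe
    exact h3 (hxe ▸ mem_image_of_mem κ hx)
  · intro x hx hx' hxe
    exact hx' (a3 hx h5 (hxe.trans h6.symm))

theorem step_col (h : Step ρ κ γ A B T T') : T'.image γ = T.image γ := by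
  obtain ⟨e, e', h1, _, _, _, h5, h6, rfl⟩ := h
  ext y
  simp only [mem_image, mem_insert, mem_erase]
  constructor
  · rintro ⟨x, rfl | ⟨_, hx⟩, rfl⟩
    · exact ⟨e', h5, h6⟩
    · exact ⟨x, hx, rfl⟩
  · rintro ⟨x, hx, rfl⟩
    by_cases hxe : x = e'
    · exact ⟨e, Or.inl rfl, by rw [hxe, h6]⟩
    · exact ⟨x, Or.inr ⟨hxe, hx⟩, rfl⟩

theorem step_fr (hF : Fr ρ κ A B T) (h : Step ρ κ γ A B T T') : Fr ρ κ A B T' := by
  obtain ⟨e, e', _, h2, _, h4, _, _, rfl⟩ := h
  constructor <;> intro x hx <;> rcases mem_insert.1 hx with rfl | hx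
  · exact h2
  · exact hF.1 x (mem_of_mem_erase hx)
  · exact h4
  · exact hF.2 x (mem_of_mem_erase hx)

theorem step_symm (hT : IsM ρ κ γ T) (hF : Fr ρ κ A B T) (h : Step ρ κ γ A B T T') :
    Step ρ κ γ A B T' T := by
  obtain ⟨e, e', h1, h2, h3, h4, h5, h6, rfl⟩ := h
  have hee : e ≠ e' := fun h => h1 (h ▸ mem_image_of_mem ρ h5)
  have heT : e ∉ T := fun h => h1 (mem_image_of_mem ρ h)
  refine ⟨e', e, ?_, hF.1 e' h5, ?_, hF.2 e' h5, mem_insert_self _ _, h6.symm, ?_⟩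
  · rw [mem_image]
    rintro ⟨x, hx, hxe⟩
    rcases mem_insert.1 hx with rfl | hx
    · exact h1 (hxe ▸ mem_image_of_mem ρ h5)
    · exact (mem_erase.1 hx).1 (hT.1 (mem_erase.1 hx).2 h5 hxe)
  · rw [mem_image]
    rintro ⟨x, hx, hxe⟩
    rcases mem_insert.1 hx with rfl | hx
    · exact h3 (hxe ▸ mem_image_of_mem κ h5)
    · exact (mem_erase.1 hx).1 (hT.2.1 (mem_erase.1 hx).2 h5 hxe)
  · ext x
    simp only [mem_insert, mem_erase]
    constructor
    · intro hx
      by_cases hxe : x = e'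
      · exact Or.inl hxe
      · exact Or.inr ⟨fun h => heT (h ▸ hx), Or.inr ⟨hxe, hx⟩⟩
    · rintro (rfl | ⟨hx1, rfl | ⟨_, hx2⟩⟩)
      · exact h5
      · exact absurd rfl hx1
      · exact hx2

/-- what is preserved -/
theorem rc_all (hT : IsM ρ κ γ T) (hF : Fr ρ κ A B T) (h : Rc ρ κ γ A B T T') :
    IsM ρ κ γ T' ∧ Fr ρ κ A B T' ∧ T'.card = T.card ∧ T'.image γ = T.image γ := by
  induction h with
  | refl => exact ⟨hT, hF, rfl, rfl⟩
  | tail _ hs ih =>
    obtain ⟨a1, a2, a3, a4⟩ := ih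
    exact ⟨step_isM a1 hs, step_fr a2 hs, (step_card hs).trans a3, (step_col hs).trans a4⟩

theorem rc_symm (hT : IsM ρ κ γ T) (hF : Fr ρ κ A B T) (h : Rc ρ κ γ A B T T') :
    Rc ρ κ γ A B T' T := by
  induction h with
  | refl => exact Relation.ReflTransGen.refl
  | tail hr hs ih =>
    obtain ⟨a1, a2, _, _⟩ := rc_all hT hF hr
    exact Relation.ReflTransGen.head (step_symm a1 a2 hs) ih

theorem mx_rc (hT : Mx ρ κ γ T) (hF : Fr ρ κ A B T) (h : Rc ρ κ γ A B T T') : Mx ρ κ γ T' := by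
  obtain ⟨a1, _, a3, _⟩ := rc_all hT.1 hF h
  exact ⟨a1, fun S hS => by rw [a3]; exact hT.2 S hS⟩

theorem core_sub : core ρ κ γ A B T ⊆ T := filter_subset _ _

theorem core_eq (hT : IsM ρ κ γ T) (hF : Fr ρ κ A B T) (h : Rc ρ κ γ A B T T') :
    core ρ κ γ A B T' = core ρ κ γ A B T := by
  have h' := rc_symm hT hF h
  ext e
  simp only [core, mem_filter]
  constructor
  · rintro ⟨_, h2⟩
    exact ⟨h2 T h', fun S hS => h2 S (h'.trans hS)⟩
  · rintro ⟨_, h2⟩
    exact ⟨h2 T' h, fun S hS => h2 S (h.trans hS)⟩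

/-- A touched edge leaves both its row and its colour free at some time. -/
theorem free_of_touched (hT : IsM ρ κ γ T) (hF : Fr ρ κ A B T) {e : E} (he : e ∈ T)
    (hc : e ∉ core ρ κ γ A B T) :
    ∃ T1 T2, Rc ρ κ γ A B T T1 ∧ Rc ρ κ γ A B T T2 ∧ e ∈ T1 ∧
      (∃ g, ρ g ∉ T1.image ρ ∧ ρ g ∉ A ∧ κ g ∉ T1.image κ ∧ κ g ∉ B ∧ γ g = γ e) ∧
      ρ e ∉ T2.image ρ ∧ κ e ∉ T2.image κ := by
  have h1 : ∃ S, Rc ρ κ γ A B T S ∧ e ∉ S := by
    by_contra hcon
    push Not at hcon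
    exact hc (mem_filter.2 ⟨he, hcon⟩)
  obtain ⟨S, hS, heS⟩ := h1
  induction hS with
  | refl => exact absurd he heS
  | @tail S1 S2 hr hs ih =>
    by_cases heS1 : e ∈ S1
    · obtain ⟨a1, a2, _, _⟩ := rc_all hT hF hr
      have hsy := step_symm a1 a2 hs
      have hs0 := hs
      obtain ⟨g, e', h1, h2, h3, h4, h5, h6, rfl⟩ := hs
      have hee : e = e' := by
        by_contra hne
        exact heS (mem_insert_of_mem (mem_erase.2 ⟨hne, heS1⟩))
      subst hee
      refine ⟨S1, _, hr, hr.tail hs0, heS1, ⟨g, h1, h2, h3, h4, h6.symm⟩, ?_, ?_⟩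
      · rw [mem_image]
        rintro ⟨x, hx, hxe⟩
        rcases mem_insert.1 hx with rfl | hx
        · exact h1 (hxe ▸ mem_image_of_mem ρ h5)
        · exact (mem_erase.1 hx).1 (a1.1 (mem_erase.1 hx).2 h5 hxe)
      · rw [mem_image]
        rintro ⟨x, hx, hxe⟩
        rcases mem_insert.1 hx with rfl | hx
        · exact h3 (hxe ▸ mem_image_of_mem κ h5)
        · exact (mem_erase.1 hx).1 (a1.2.1 (mem_erase.1 hx).2 h5 hxe)
    · exact ih heS1

/-- In a maximal rainbow matching the column of every candidate is covered. -/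
theorem closed (hT : Mx ρ κ γ T) {e : E} (h1 : ρ e ∉ T.image ρ) (h2 : κ e ∉ T.image κ) :
    γ e ∈ T.image γ := by
  by_contra h3
  have heT : e ∉ T := fun h => h1 (mem_image_of_mem ρ h)
  have key : ∀ {X : Type} (φ : E → X), Set.InjOn φ (T : Set E) → φ e ∉ T.image φ →
      Set.InjOn φ ((insert e T : Finset E) : Set E) := by
    intro X φ hφ hne
    rw [coe_insert, Set.injOn_insert (by simpa using heT)]
    refine ⟨hφ, ?_⟩
    rintro ⟨x, hx, hxe⟩
    exact hne (mem_image.2 ⟨x, hx, hxe⟩)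
  have := hT.2 (insert e T) ⟨key ρ hT.1.1 h1, key κ hT.1.2.1 h2, key γ hT.1.2.2 h3⟩
  rw [card_insert_of_notMem heT] at this
  omega

/-- The column of a candidate is touched. -/
theorem col_touched (hT : Mx ρ κ γ T) (hF : Fr ρ κ A B T) (hr : Rc ρ κ γ A B T T') {e : E}
    (h1 : ρ e ∉ T'.image ρ) (h1' : ρ e ∉ A) (h2 : κ e ∉ T'.image κ) (h2' : κ e ∉ B) :
    γ e ∈ T.image γ \ (core ρ κ γ A B T).image γ := by
  obtain ⟨a1, a2, a3, a4⟩ := rc_all hT.1 hF hr
  have hc := closed (mx_rc hT hF hr) h1 h2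
  rw [mem_sdiff]
  refine ⟨a4 ▸ hc, ?_⟩
  obtain ⟨e', he', hγ⟩ := mem_image.1 hc
  have hs : Step ρ κ γ A B T' (insert e (T'.erase e')) :=
    ⟨e, e', h1, h1', h2, h2', he', hγ, rfl⟩
  rw [mem_image]
  rintro ⟨x, hx, hxe⟩
  have hxT' : x ∈ T' := (mem_filter.1 hx).2 T' hr
  have hxe' : x = e' := a1.2.2 hxT' he' (hxe.trans hγ.symm)
  have hx2 := (mem_filter.1 hx).2 _ (hr.tail hs)
  rcases mem_insert.1 hx2 with h | h
  · exact h1 (h ▸ mem_image_of_mem ρ hxT')
  · exact (mem_erase.1 h).1 hxe'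

theorem card_col (hT : IsM ρ κ γ T) :
    (T.image γ \ (core ρ κ γ A B T).image γ).card = (T \ core ρ κ γ A B T).card := by
  have hsub : core ρ κ γ A B T ⊆ T := core_sub
  have h1 : Set.InjOn γ ((core ρ κ γ A B T : Finset E) : Set E) := fun x hx y hy h =>
    hT.2.2 (hsub hx) (hsub hy) h
  rw [card_sdiff_of_subset (image_subset_image hsub), card_sdiff_of_subset hsub,
    card_image_of_injOn hT.2.2, card_image_of_injOn h1]

end Pool.Agent.RB69
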