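import Pool.Agent.Helper69_RB.Rec

/-!
# Recycled exchanges in rainbow matchings: the number of touched edges
-/

set_option autoImplicit false

open Finset

namespace Pool.Agent.RB69

open scoped Classical

variable {E R K C : Type} [Fintype R] [Fintype K]
variable {ρ : E → R} {κ : E → K} {γ : E → C}

theorem arith_step {h g a : ℕ} (h2g : 2 * g = (a + 4) * (a + 3) + 8)
    (hh : (a + 5 + h) * (1 + g) ≤ (1 + h) * h) : (a + 5) * (a + 4) + 8 ≤ 2 * h := by
  by_contra hcon
  have hle : h ≤ g + a + 3 := by nlinarith
  zify at h2g hh hle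
  have hb : (0 : ℤ) ≤ a := Int.natCast_nonneg a
  have hh0 : (0 : ℤ) ≤ h := Int.natCast_nonneg h
  nlinarith [mul_nonneg hh0 (sub_nonneg.2 hle), mul_nonneg hb (sub_nonneg.2 hle)]

/-- Twice the lower bound for the number of touched edges with `a` free rows and one colour. -/
def L (a : ℕ) : ℕ := a * (a - 1) + 2 * min a 4

theorem L_even (a : ℕ) : ∃ g, L a = 2 * g := by
  have h : Even (a * (a - 1)) := Nat.even_mul_pred_self a
  obtain ⟨k, hk⟩ := h
  exact ⟨k + min a 4, by rw [L, hk]; ring⟩

theorem L_step {h g a : ℕ} (h2g : L a = 2 * g)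
    (hh : (a + 1 + h) * (1 + g) ≤ (1 + h) * h) : L (a + 1) ≤ 2 * h := by
  match a, h2g, hh with
  | 0, h2g, hh =>
    have h1 : g = 0 := by simp [L] at h2g; omega
    subst h1
    have h2 : L (0 + 1) = 2 := rfl
    rw [h2]
    nlinarith
  | 1, h2g, hh =>
    have h1 : L 1 = 2 := rfl
    have h2 : L (1 + 1) = 6 := rfl
    have h3 : g = 1 := by omega
    subst h3
    rw [h2]
    nlinarith
  | 2, h2g, hh =>
    have h1 : L 2 = 6 := rfl
    have h2 : L (2 + 1) = 12 := rfl
    have h3 : g = 3 := by omega
    subst h3
    rw [h2]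
    by_contra hcon
    have h4 : h ≤ 5 := by omega
    interval_cases h <;> omega
  | 3, h2g, hh =>
    have h1 : L 3 = 12 := rfl
    have h2 : L (3 + 1) = 20 := rfl
    have h3 : g = 6 := by omega
    subst h3
    rw [h2]
    by_contra hcon
    have h4 : h ≤ 9 := by omega
    interval_cases h <;> omega
  | a + 4, h2g, hh =>
    have h1 : L (a + 4) = (a + 4) * (a + 3) + 8 := by
      simp only [L]
      rw [min_eq_right (by omega), show a + 4 - 1 = a + 3 by omega]
    have h2 : L (a + 4 + 1) = (a + 5) * (a + 4) + 8 := by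
      simp only [L]
      rw [min_eq_right (by omega), show a + 4 + 1 - 1 = a + 4 by omega]
    rw [h2]
    exact arith_step (by rw [← h1, h2g]) hh

/-- One unused colour. -/
theorem base (He : ∀ r c, ∃ e, ρ e = r ∧ κ e = c)
    (Hi : ∀ e e', κ e = κ e' → γ e = γ e' → e = e') (a : ℕ) :
    ∀ (A : Finset R) (B : Finset K) (T : Finset E), Mx ρ κ γ T → Fr ρ κ A B T →
      a + T.card + A.card = Fintype.card R → 1 + T.card + B.card = Fintype.card K →
      L a ≤ 2 * (T \ core ρ κ γ A B T).card := by
  induction a with
  | zero => intro A B T _ _ _ _; exact Nat.zero_le _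
  | succ a ih =>
    intro A B T hT hF ha hj
    obtain ⟨g, hg⟩ := L_even a
    refine L_step hg (row_rec He Hi hT hF ha hj ?_)
    intro r T' h1 hrA h2
    obtain ⟨_, a2, a3, _⟩ := rc_all hT.1 hF h1
    have hF' : Fr ρ κ (insert r A) B T' := by
      refine ⟨fun e he h => ?_, a2.2⟩
      rcases mem_insert.1 h with h | h
      · exact h2 (h ▸ mem_image_of_mem ρ he)
      · exact a2.1 e he h
    have := ih (insert r A) B T' (mx_rc hT hF h1) hF'
      (by rw [card_insert_of_notMem hrA, a3]; omega) (by rw [a3]; exact hj)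
    omega

/-- `j + 1` unused colours. -/
theorem bound (He : ∀ r c, ∃ e, ρ e = r ∧ κ e = c)
    (Hi : ∀ e e', κ e = κ e' → γ e = γ e' → e = e') (a j : ℕ) :
    ∀ (A : Finset R) (B : Finset K) (T : Finset E), Mx ρ κ γ T → Fr ρ κ A B T →
      a + T.card + A.card = Fintype.card R → j + 1 + T.card + B.card = Fintype.card K →
      L a + 2 * (a * j) ≤ 2 * (T \ core ρ κ γ A B T).card := by
  induction j with
  | zero =>
    intro A B T hT hF ha hj
    have := base He Hi a A B T hT hF ha (by omega)
    simpa using this
  | succ j ih =>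
    intro A B T hT hF ha hj
    have hex : ∃ c, c ∉ T.image κ ∧ c ∉ B := by
      by_contra hcon
      push Not at hcon
      have hsub : (univ : Finset K) ⊆ T.image κ ∪ B := by
        intro c _
        by_cases hc : c ∈ T.image κ
        · exact mem_union_left _ hc
        · exact mem_union_right _ (hcon c hc)
      have h1 := card_le_card hsub
      have h2 := card_union_le (T.image κ) B
      have h3 : (T.image κ).card ≤ T.card := card_image_le
      rw [card_univ] at h1
      omega
    obtain ⟨c, hc, hcB⟩ := hex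
    have hF' : Fr ρ κ A (insert c B) T := by
      refine ⟨hF.1, fun e he h => ?_⟩
      rcases mem_insert.1 h with h | h
      · exact hc (h ▸ mem_image_of_mem κ he)
      · exact hF.2 e he h
    have h1 := ih A (insert c B) T hT hF' ha (by rw [card_insert_of_notMem hcB]; omega)
    have h2 := colour_rec He Hi hT hF ha hc hcB
    have h3 : a * (j + 1) = a * j + a := by ring
    omega

end Pool.Agent.RB69
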