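import Pool.Agent.Helper69_RB.Bound

/-!
# Recycled exchanges in rainbow matchings: the two closures are disjoint
-/

set_option autoImplicit false

open Finset

namespace Pool.Agent.RB69

open scoped Classical

variable {E R K C : Type} {ρ : E → R} {κ : E → K} {γ : E → C} {T : Finset E}

theorem isM_swap (h : IsM ρ κ γ T) : IsM γ κ ρ T := ⟨h.2.2, h.2.1, h.1⟩

theorem mx_swap (h : Mx ρ κ γ T) : Mx γ κ ρ T :=
  ⟨isM_swap h.1, fun T' hT' => h.2 T' (isM_swap hT')⟩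

/-- Before the first edge of `S` is touched. -/
theorem first_touch {A : Finset R} {B : Finset K} (hT : IsM ρ κ γ T) (hF : Fr ρ κ A B T)
    {S : Finset E} (hS : S ⊆ T) {e : E} (he : e ∈ S) (hc : e ∉ core ρ κ γ A B T) :
    ∃ T1 e1 g, Rc ρ κ γ A B T T1 ∧ S ⊆ T1 ∧ e1 ∈ S ∧ ρ g ∉ T1.image ρ ∧ κ g ∉ T1.image κ ∧
      κ g ∉ B ∧ γ g = γ e1 := by
  have h1 : ∃ T2, Rc ρ κ γ A B T T2 ∧ ¬ S ⊆ T2 := by
    by_contra hcon
    push Not at hcon
    exact hc (mem_filter.2 ⟨hS he, fun T' hT' => hcon T' hT' he⟩)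
  obtain ⟨T2, hr, hn⟩ := h1
  induction hr with
  | refl => exact absurd hS hn
  | @tail S1 S2 hr hs ih =>
    by_cases h : S ⊆ S1
    · obtain ⟨g, e', h1, h2, h3, h4, h5, h6, rfl⟩ := hs
      have he' : e' ∈ S := by
        by_contra hne
        refine hn fun x hx => mem_insert_of_mem (mem_erase.2 ⟨?_, h hx⟩)
        rintro rfl
        exact hne hx
      exact ⟨S1, e', g, hr, h, he', h1, h3, h4, h6.symm⟩
    · exact ih h

/-- The edges touched by row exchanges with the colours outside `U₂` and those touched by column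
exchanges with the colours outside `U₁` are disjoint. -/
theorem closures_disjoint {U₁ U₂ : Finset K} (hT : Mx ρ κ γ T)
    (hU₁ : ∀ e ∈ T, κ e ∉ U₁) (hU₂ : ∀ e ∈ T, κ e ∉ U₂) (hU : Disjoint U₁ U₂)
    (hall : ∀ c, c ∈ T.image κ ∨ c ∈ U₁ ∨ c ∈ U₂) :
    Disjoint (T \ core ρ κ γ ∅ U₂ T) (T \ core γ κ ρ ∅ U₁ T) := by
  rw [disjoint_left]
  intro e0 he1 he2
  have hF1 : Fr ρ κ ∅ U₂ T := ⟨fun _ _ => notMem_empty _, hU₂⟩
  have hF2 : Fr γ κ ∅ U₁ T := ⟨fun _ _ => notMem_empty _, hU₁⟩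
  set C2 := core γ κ ρ ∅ U₁ T with hC2
  set S := T \ C2 with hSdef
  have hC2T : C2 ⊆ T := core_sub
  have hST : S ⊆ T := sdiff_subset
  obtain ⟨T1, e, g1, hr1, hST1, heS, a1, a2, a3, a4⟩ :=
    first_touch hT.1 hF1 hST he2 (mem_sdiff.1 he1).2
  have heT : e ∈ T := hST heS
  obtain ⟨T2, _, hr2, _, heT2, ⟨g2, b1, _, b2, b3, b4⟩, _, _⟩ :=
    free_of_touched (isM_swap hT.1) hF2 heT (mem_sdiff.1 heS).2
  obtain ⟨p1, p2, p3, p4⟩ := rc_all hT.1 hF1 hr1
  obtain ⟨q1, q2, q3, q4⟩ := rc_all (isM_swap hT.1) hF2 hr2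
  have hC2T2 : C2 ⊆ T2 := fun x hx => (mem_filter.1 hx).2 T2 hr2
  -- the colours
  have colS : ∀ x ∈ T2 \ C2, κ x ∈ S.image κ ∨ κ x ∈ U₂ := by
    intro x hx
    rcases hall (κ x) with h | h | h
    · obtain ⟨y, hy, hyx⟩ := mem_image.1 h
      by_cases hyC : y ∈ C2
      · have := q1.2.1 (hC2T2 hyC) (mem_sdiff.1 hx).1 hyx
        exact absurd (this ▸ hyC) (mem_sdiff.1 hx).2
      · exact Or.inl (mem_image.2 ⟨y, mem_sdiff.2 ⟨hy, hyC⟩, hyx⟩)
    · exact absurd h (q2.2 x (mem_sdiff.1 hx).1)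
    · exact Or.inr h
  have colN : ∀ x ∈ T1 \ S, κ x ∉ S.image κ ∧ κ x ∉ U₂ := by
    intro x hx
    refine ⟨fun h => ?_, p2.2 x (mem_sdiff.1 hx).1⟩
    obtain ⟨y, hy, hyx⟩ := mem_image.1 h
    have := p1.2.1 (hST1 hy) (mem_sdiff.1 hx).1 hyx
    exact (mem_sdiff.1 hx).2 (this ▸ hy)
  -- the rows
  have rowS : ∀ x ∈ T2 \ C2, ρ x ∈ S.image ρ := by
    intro x hx
    have h1 : ρ x ∈ T.image ρ := q4 ▸ mem_image_of_mem ρ (mem_sdiff.1 hx).1
    obtain ⟨y, hy, hyx⟩ := mem_image.1 h1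
    by_cases hyC : y ∈ C2
    · have := q1.2.2 (hC2T2 hyC) (mem_sdiff.1 hx).1 hyx
      exact absurd (this ▸ hyC) (mem_sdiff.1 hx).2
    · exact mem_image.2 ⟨y, mem_sdiff.2 ⟨hy, hyC⟩, hyx⟩
  have rowN : ∀ x ∈ T1 \ S, ρ x ∉ S.image ρ := by
    intro x hx h
    obtain ⟨y, hy, hyx⟩ := mem_image.1 h
    have := p1.1 (hST1 hy) (mem_sdiff.1 hx).1 hyx
    exact (mem_sdiff.1 hx).2 (this ▸ hy)
  -- the columns
  have clN : ∀ x ∈ T1 \ S, γ x ∈ C2.image γ := by
    intro x hx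
    have h1 : γ x ∈ T.image γ := p4 ▸ mem_image_of_mem γ (mem_sdiff.1 hx).1
    obtain ⟨y, hy, hyx⟩ := mem_image.1 h1
    by_cases hyC : y ∈ C2
    · exact mem_image.2 ⟨y, hyC, hyx⟩
    · have hyS : y ∈ S := mem_sdiff.2 ⟨hy, hyC⟩
      have := p1.2.2 (hST1 hyS) (mem_sdiff.1 hx).1 hyx
      exact absurd (this ▸ hyS) (mem_sdiff.1 hx).2
  have clS : ∀ x ∈ T2 \ C2, γ x ∉ C2.image γ := by
    intro x hx h
    obtain ⟨y, hy, hyx⟩ := mem_image.1 h
    have := q1.1 (hC2T2 hy) (mem_sdiff.1 hx).1 hyx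
    exact (mem_sdiff.1 hx).2 (this ▸ hy)
  -- the new edges
  have n1S : κ g1 ∉ S.image κ := by
    intro h
    obtain ⟨y, hy, hyx⟩ := mem_image.1 h
    exact a2 (hyx ▸ mem_image_of_mem κ (hST1 hy))
  have n2S : κ g2 ∈ S.image κ ∨ κ g2 ∈ U₂ := by
    rcases hall (κ g2) with h | h | h
    · obtain ⟨y, hy, hyx⟩ := mem_image.1 h
      by_cases hyC : y ∈ C2
      · exact absurd (hyx ▸ mem_image_of_mem κ (hC2T2 hyC)) b2
      · exact Or.inl (mem_image.2 ⟨y, mem_sdiff.2 ⟨hy, hyC⟩, hyx⟩)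
    · exact absurd h b3
    · exact Or.inr h
  have hκ12 : κ g1 ≠ κ g2 := by
    intro h
    rcases n2S with h' | h'
    · exact n1S (h ▸ h')
    · exact a3 (h ▸ h')
  have hρ12 : ρ g1 ≠ ρ g2 := by
    intro h
    exact a1 (h ▸ b4 ▸ mem_image_of_mem ρ (hST1 heS))
  have hγ12 : γ g1 ≠ γ g2 := by
    intro h
    exact b1 (h ▸ a4 ▸ mem_image_of_mem γ heT2)
  set W := ((T1 \ S) ∪ (T2 \ C2)).erase e with hW
  have eW : e ∈ (T1 \ S) ∪ (T2 \ C2) :=
    mem_union_right _ (mem_sdiff.2 ⟨heT2, (mem_sdiff.1 heS).2⟩)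
  have hdisj : Disjoint (T1 \ S) (T2 \ C2) := by
    rw [disjoint_left]
    intro x hx hx'
    exact rowN x hx (rowS x hx')
  have hWcard : W.card + 1 = T.card := by
    rw [hW, card_erase_of_mem eW, card_union_of_disjoint hdisj, card_sdiff_of_subset hST1,
      card_sdiff_of_subset hC2T2, p3, q3]
    have h1 : S.card = T.card - C2.card := card_sdiff_of_subset hC2T
    have h2 := card_le_card hC2T
    have h3 := card_le_card hST
    have h4 : 0 < T.card := card_pos.2 ⟨e, heT⟩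
    omega
  -- `W` with the two new edges
  have inj : ∀ {X : Type} (φ : E → X), Set.InjOn φ (T1 : Set E) → Set.InjOn φ (T2 : Set E) →
      (∀ x ∈ T1 \ S, ∀ y ∈ T2 \ C2, φ x ≠ φ y) → (∀ x ∈ W, φ x ≠ φ g1) →
      (∀ x ∈ W, φ x ≠ φ g2) → φ g1 ≠ φ g2 →
      Set.InjOn φ ((insert g1 (insert g2 W) : Finset E) : Set E) := by
    intro X φ h1 h2 h12 hw1 hw2 hg
    have hWinj : ∀ x ∈ W, ∀ y ∈ W, φ x = φ y → x = y := by
      intro x hx y hy hxy
      rcases mem_union.1 (mem_of_mem_erase hx) with hx | hx <;>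
        rcases mem_union.1 (mem_of_mem_erase hy) with hy | hy
      · exact h1 (mem_sdiff.1 hx).1 (mem_sdiff.1 hy).1 hxy
      · exact absurd hxy (h12 x hx y hy)
      · exact absurd hxy.symm (h12 y hy x hx)
      · exact h2 (mem_sdiff.1 hx).1 (mem_sdiff.1 hy).1 hxy
    intro x hx y hy hxy
    rcases mem_insert.1 (mem_coe.1 hx) with hx1 | hx1
    · rcases mem_insert.1 (mem_coe.1 hy) with hy1 | hy1
      · rw [hx1, hy1]
      · rcases mem_insert.1 hy1 with hy2 | hy2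
        · exact absurd (hx1 ▸ hy2 ▸ hxy) hg
        · exact absurd (hx1 ▸ hxy.symm) (hw1 y hy2)
    · rcases mem_insert.1 hx1 with hx2 | hx2
      · rcases mem_insert.1 (mem_coe.1 hy) with hy1 | hy1
        · exact absurd (hx2 ▸ hy1 ▸ hxy.symm) hg
        · rcases mem_insert.1 hy1 with hy2 | hy2
          · rw [hx2, hy2]
          · exact absurd (hx2 ▸ hxy.symm) (hw2 y hy2)
      · rcases mem_insert.1 (mem_coe.1 hy) with hy1 | hy1
        · exact absurd (hy1 ▸ hxy) (hw1 x hx2)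
        · rcases mem_insert.1 hy1 with hy2 | hy2
          · exact absurd (hy2 ▸ hxy) (hw2 x hx2)
          · exact hWinj x hx2 y hy2 hxy
  have hnew : IsM ρ κ γ (insert g1 (insert g2 W)) := by
    refine ⟨inj ρ p1.1 q1.2.2 ?_ ?_ ?_ hρ12, inj κ p1.2.1 q1.2.1 ?_ ?_ ?_ hκ12,
      inj γ p1.2.2 q1.1 ?_ ?_ ?_ hγ12⟩
    · intro x hx y hy h
      exact rowN x hx (h ▸ rowS y hy)
    · intro x hx h
      rcases mem_union.1 (mem_of_mem_erase hx) with hx | hx
      · exact a1 (h ▸ mem_image_of_mem ρ (mem_sdiff.1 hx).1)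
      · obtain ⟨y, hy, hyx⟩ := mem_image.1 (rowS x hx)
        exact a1 (h ▸ hyx ▸ mem_image_of_mem ρ (hST1 hy))
    · intro x hx h
      rcases mem_union.1 (mem_of_mem_erase hx) with hx' | hx'
      · have : x = e := p1.1 (mem_sdiff.1 hx').1 (hST1 heS) (h.trans b4)
        exact (mem_erase.1 hx).1 this
      · have : x = e := q1.2.2 (mem_sdiff.1 hx').1 heT2 (h.trans b4)
        exact (mem_erase.1 hx).1 this
    · intro x hx y hy h
      rcases colS y hy with h' | h'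
      · exact (colN x hx).1 (h ▸ h')
      · exact (colN x hx).2 (h ▸ h')
    · intro x hx h
      rcases mem_union.1 (mem_of_mem_erase hx) with hx | hx
      · exact a2 (h ▸ mem_image_of_mem κ (mem_sdiff.1 hx).1)
      · rcases colS x hx with h' | h'
        · exact n1S (h ▸ h')
        · exact a3 (h ▸ h')
    · intro x hx h
      rcases mem_union.1 (mem_of_mem_erase hx) with hx | hx
      · rcases n2S with h' | h'
        · exact (colN x hx).1 (h ▸ h')
        · exact (colN x hx).2 (h ▸ h')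
      · exact b2 (h ▸ mem_image_of_mem κ (mem_sdiff.1 hx).1)
    · intro x hx y hy h
      exact clS y hy (h ▸ clN x hx)
    · intro x hx h
      rcases mem_union.1 (mem_of_mem_erase hx) with hx' | hx'
      · have : x = e := p1.2.2 (mem_sdiff.1 hx').1 (hST1 heS) (h.trans a4)
        exact (mem_erase.1 hx).1 this
      · have : x = e := q1.1 (mem_sdiff.1 hx').1 heT2 (h.trans a4)
        exact (mem_erase.1 hx).1 this
    · intro x hx h
      rcases mem_union.1 (mem_of_mem_erase hx) with hx | hx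
      · obtain ⟨y, hy, hyx⟩ := mem_image.1 (clN x hx)
        exact b1 (h ▸ hyx ▸ mem_image_of_mem γ (hC2T2 hy))
      · exact b1 (h ▸ mem_image_of_mem γ (mem_sdiff.1 hx).1)
  have hg2W : g2 ∉ W := by
    intro h
    rcases mem_union.1 (mem_of_mem_erase h) with hx | hx
    · rcases n2S with h' | h'
      · exact (colN g2 hx).1 h'
      · exact (colN g2 hx).2 h'
    · exact b2 (mem_image_of_mem κ (mem_sdiff.1 hx).1)
  have hg1W : g1 ∉ insert g2 W := by
    intro h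
    rcases mem_insert.1 h with h | h
    · exact hκ12 (h ▸ rfl)
    · rcases mem_union.1 (mem_of_mem_erase h) with hx | hx
      · exact a1 (mem_image_of_mem ρ (mem_sdiff.1 hx).1)
      · obtain ⟨y, hy, hyx⟩ := mem_image.1 (rowS g1 hx)
        exact a1 (hyx ▸ mem_image_of_mem ρ (hST1 hy))
  have := hT.2 _ hnew
  rw [card_insert_of_notMem hg1W, card_insert_of_notMem hg2W] at this
  omega

end Pool.Agent.RB69
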