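import Pool.Agent.Helper69_RB.Dis

/-!
# Recycled exchanges in rainbow matchings: the bound `n - √(n/2) - 1/2`
-/

set_option autoImplicit false

open Finset

namespace Pool.Agent.RB69

open scoped Classical

theorem arith_final {n m t a b d x y : ℕ} (hn : n = t + a) (hm : m = t + (b + 2)) (hda : d ≤ a)
    (h : n + 2 * d + d * n < 2 * d ^ 2 + 2 * min d 4 + d * m)
    (b1 : L a + 2 * (a * 0) ≤ 2 * x) (b2 : L a + 2 * (a * b) ≤ 2 * y) (hxy : x + y ≤ t) :
    False := by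
  have h0 : 0 < d := by
    rcases Nat.eq_zero_or_pos d with h1 | h1
    · subst h1
      simp at h
    · exact h1
  have hmin : min d 4 ≤ min a 4 := min_le_min_right 4 hda
  obtain ⟨k, rfl⟩ := Nat.exists_eq_add_of_le hda
  obtain ⟨d', rfl⟩ := Nat.exists_eq_add_of_le' h0
  have hL : L (d' + 1 + k) = (d' + 1 + k) * (d' + k) + 2 * min (d' + 1 + k) 4 := by
    rw [L, show d' + 1 + k - 1 = d' + k by omega]
  rw [hL] at b1 b2
  subst hn hm
  nlinarith

theorem main {E R K C : Type} [Fintype E] [Fintype R] [Fintype K] [Fintype C]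
    {ρ : E → R} {κ : E → K} {γ : E → C} {m n d : ℕ}
    (hR : Fintype.card R = n) (hK : Fintype.card K = m) (hC : Fintype.card C = n)
    (He : ∀ r c, ∃ e, ρ e = r ∧ κ e = c) (Hi : ∀ e e', κ e = κ e' → γ e = γ e' → e = e')
    (He' : ∀ r c, ∃ e, γ e = r ∧ κ e = c) (Hi' : ∀ e e', κ e = κ e' → ρ e = ρ e' → e = e')
    (hmd : n + 2 ≤ m + d) (h : n + 2 * d + d * n < 2 * d ^ 2 + 2 * min d 4 + d * m) :
    ∃ T : Finset E, n < T.card + d ∧ IsM ρ κ γ T := by
  obtain ⟨T, hTm, hTmax⟩ := (univ.filter fun T : Finset E => IsM ρ κ γ T)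
    |>.exists_max_image (fun T => T.card) ⟨∅, mem_filter.2 ⟨mem_univ _, by
      refine ⟨?_, ?_, ?_⟩ <;> rw [coe_empty] <;> exact Set.injOn_empty _⟩⟩
  have hM : IsM ρ κ γ T := (mem_filter.1 hTm).2
  have hT : Mx ρ κ γ T := ⟨hM, fun T' hT' => hTmax T' (mem_filter.2 ⟨mem_univ _, hT'⟩)⟩
  refine ⟨T, ?_, hM⟩
  by_contra hcon
  push Not at hcon
  -- the unused colours
  have hκc : (T.image κ).card = T.card := card_image_of_injOn hM.2.1
  have hUc : (univ \ T.image κ).card = m - T.card := by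
    rw [card_sdiff_of_subset (subset_univ _), card_univ, hK, hκc]
  obtain ⟨a, ha⟩ : ∃ a, n = T.card + a := ⟨n - T.card, by omega⟩
  obtain ⟨b, hb⟩ : ∃ b, m = T.card + (b + 2) := ⟨m - T.card - 2, by omega⟩
  obtain ⟨U₁, hU₁s, hU₁c⟩ : ∃ U₁ ⊆ univ \ T.image κ, U₁.card = 1 :=
    exists_subset_card_eq (by omega)
  set U₂ := (univ \ T.image κ) \ U₁ with hU₂
  have hU₂c : U₂.card = b + 1 := by
    rw [hU₂, card_sdiff_of_subset hU₁s, hUc, hU₁c]
    omega
  have hu₁ : ∀ e ∈ T, κ e ∉ U₁ := fun e he h =>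
    (mem_sdiff.1 (hU₁s h)).2 (mem_image_of_mem κ he)
  have hu₂ : ∀ e ∈ T, κ e ∉ U₂ := fun e he h =>
    (mem_sdiff.1 (mem_sdiff.1 h).1).2 (mem_image_of_mem κ he)
  have hdis : Disjoint U₁ U₂ := by
    rw [disjoint_left]
    intro x hx hx'
    exact (mem_sdiff.1 hx').2 hx
  have hall : ∀ c, c ∈ T.image κ ∨ c ∈ U₁ ∨ c ∈ U₂ := by
    intro c
    by_cases h1 : c ∈ T.image κ
    · exact Or.inl h1
    by_cases h2 : c ∈ U₁
    · exact Or.inr (Or.inl h2)
    · exact Or.inr (Or.inr (mem_sdiff.2 ⟨mem_sdiff.2 ⟨mem_univ _, h1⟩, h2⟩))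
  have hdj := closures_disjoint hT hu₁ hu₂ hdis hall
  have hF1 : Fr ρ κ ∅ U₂ T := ⟨fun _ _ => notMem_empty _, hu₂⟩
  have hF2 : Fr γ κ ∅ U₁ T := ⟨fun _ _ => notMem_empty _, hu₁⟩
  have b1 := bound He Hi a 0 ∅ U₂ T hT hF1
    (by rw [card_empty, hR]; omega) (by rw [hU₂c, hK]; omega)
  have b2 := bound He' Hi' a b ∅ U₁ T (mx_swap hT) hF2
    (by rw [card_empty, hC]; omega) (by rw [hU₁c, hK]; omega)
  have hsum : (T \ core ρ κ γ ∅ U₂ T).card + (T \ core γ κ ρ ∅ U₁ T).card ≤ T.card := by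
    rw [← card_union_of_disjoint hdj]
    exact card_le_card (union_subset sdiff_subset sdiff_subset)
  exact arith_final ha hb (by omega) h b1 b2 hsum

end Pool.Agent.RB69
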