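import Pool.Agent.Helper69_RB.Basic

/-!
# Recycled exchanges in rainbow matchings: the two recursions
-/

set_option autoImplicit false

open Finset

namespace Pool.Agent.RB69

open scoped Classical

variable {E R K C : Type} [Fintype R] [Fintype K]
variable {ρ : E → R} {κ : E → K} {γ : E → C} {A A' : Finset R} {B B' : Finset K}
  {T T' T'' : Finset E}

theorem step_mono (hA : A ⊆ A') (hB : B ⊆ B') (h : Step ρ κ γ A' B' T T') :
    Step ρ κ γ A B T T' := by
  obtain ⟨e, e', h1, h2, h3, h4, h5⟩ := h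
  exact ⟨e, e', h1, fun h => h2 (hA h), h3, fun h => h4 (hB h), h5⟩

theorem rc_mono (hA : A ⊆ A') (hB : B ⊆ B') (h : Rc ρ κ γ A' B' T T') : Rc ρ κ γ A B T T' :=
  Relation.ReflTransGen.mono (fun _ _ h => step_mono hA hB h) _ _ h

theorem row_free (hT : IsM ρ κ γ T) (hF : Fr ρ κ A B T) {r : R}
    (hr : r ∉ A ∪ (core ρ κ γ A B T).image ρ) :
    ∃ T', Rc ρ κ γ A B T T' ∧ r ∉ T'.image ρ := by
  by_cases h : r ∈ T.image ρ
  · obtain ⟨e, he, rfl⟩ := mem_image.1 h
    have hc : e ∉ core ρ κ γ A B T := fun h =>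
      hr (mem_union_right _ (mem_image_of_mem ρ h))
    obtain ⟨_, T2, _, h2, _, _, h3, _⟩ := free_of_touched hT hF he hc
    exact ⟨T2, h2, h3⟩
  · exact ⟨T, Relation.ReflTransGen.refl, h⟩

theorem col_free (hT : IsM ρ κ γ T) (hF : Fr ρ κ A B T) {c : K}
    (hr : c ∉ B ∪ (core ρ κ γ A B T).image κ) :
    ∃ T', Rc ρ κ γ A B T T' ∧ c ∉ T'.image κ := by
  by_cases h : c ∈ T.image κ
  · obtain ⟨e, he, rfl⟩ := mem_image.1 h
    have hc : e ∉ core ρ κ γ A B T := fun h =>
      hr (mem_union_right _ (mem_image_of_mem κ h))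
    obtain ⟨_, T2, _, h2, _, _, _, h3⟩ := free_of_touched hT hF he hc
    exact ⟨T2, h2, h3⟩
  · exact ⟨T, Relation.ReflTransGen.refl, h⟩

theorem card_rows (hT : IsM ρ κ γ T) (hF : Fr ρ κ A B T) {a : ℕ}
    (ha : a + T.card + A.card = Fintype.card R) :
    (univ \ (A ∪ (core ρ κ γ A B T).image ρ)).card = a + (T \ core ρ κ γ A B T).card := by
  have hsub : core ρ κ γ A B T ⊆ T := core_sub
  have h1 : Set.InjOn ρ ((core ρ κ γ A B T : Finset E) : Set E) := fun x hx y hy h =>
    hT.1 (hsub hx) (hsub hy) h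
  have hdis : Disjoint A ((core ρ κ γ A B T).image ρ) := by
    rw [disjoint_right]
    intro x hx
    obtain ⟨e, he, rfl⟩ := mem_image.1 hx
    exact hF.1 e (hsub he)
  rw [card_sdiff_of_subset (subset_univ _), card_union_of_disjoint hdis,
    card_image_of_injOn h1, card_sdiff_of_subset hsub, card_univ, ← ha]
  have := card_le_card hsub
  omega

theorem card_cols (hT : IsM ρ κ γ T) (hF : Fr ρ κ A B T) {j : ℕ}
    (ha : j + T.card + B.card = Fintype.card K) :
    (univ \ (B ∪ (core ρ κ γ A B T).image κ)).card = j + (T \ core ρ κ γ A B T).card := by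
  have hsub : core ρ κ γ A B T ⊆ T := core_sub
  have h1 : Set.InjOn κ ((core ρ κ γ A B T : Finset E) : Set E) := fun x hx y hy h =>
    hT.2.1 (hsub hx) (hsub hy) h
  have hdis : Disjoint B ((core ρ κ γ A B T).image κ) := by
    rw [disjoint_right]
    intro x hx
    obtain ⟨e, he, rfl⟩ := mem_image.1 hx
    exact hF.2 e (hsub he)
  rw [card_sdiff_of_subset (subset_univ _), card_union_of_disjoint hdis,
    card_image_of_injOn h1, card_sdiff_of_subset hsub, card_univ, ← ha]
  have := card_le_card hsub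
  omega

/-- Freezing an unused colour. -/
theorem colour_rec (He : ∀ r c, ∃ e, ρ e = r ∧ κ e = c)
    (Hi : ∀ e e', κ e = κ e' → γ e = γ e' → e = e')
    (hT : Mx ρ κ γ T) (hF : Fr ρ κ A B T) {a : ℕ}
    (ha : a + T.card + A.card = Fintype.card R) {c : K} (hc : c ∉ T.image κ) (hcB : c ∉ B) :
    a + (T \ core ρ κ γ A (insert c B) T).card ≤ (T \ core ρ κ γ A B T).card := by
  have hF' : Fr ρ κ A (insert c B) T := by
    refine ⟨hF.1, fun e he h => ?_⟩
    rcases mem_insert.1 h with h | h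
    · exact hc (h ▸ mem_image_of_mem κ he)
    · exact hF.2 e he h
  rw [← card_rows hT.1 hF' ha, ← card_col hT.1]
  choose ed hed1 hed2 using He
  refine card_le_card_of_injOn (fun r => γ (ed r c)) ?_ ?_
  · intro r hr
    have hr' : r ∉ A ∪ (core ρ κ γ A (insert c B) T).image ρ := (mem_sdiff.1 hr).2
    obtain ⟨T', h1, h2⟩ := row_free hT.1 hF' hr'
    obtain ⟨_, a2, _, _⟩ := rc_all hT.1 hF' h1
    refine col_touched hT hF (rc_mono (Subset.refl _) (subset_insert _ _) h1) ?_ ?_ ?_ ?_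
    · rw [hed1]; exact h2
    · rw [hed1]; exact fun h => hr' (mem_union_left _ h)
    · rw [hed2]
      intro h
      obtain ⟨x, hx, hxc⟩ := mem_image.1 h
      exact a2.2 x hx (hxc ▸ mem_insert_self _ _)
    · rw [hed2]; exact hcB
  · intro r _ r' _ h
    have := Hi (ed r c) (ed r' c) (by rw [hed2, hed2]) h
    rw [← hed1 r c, this, hed1]

/-- Freezing a free row: double counting. -/
theorem row_rec (He : ∀ r c, ∃ e, ρ e = r ∧ κ e = c)
    (Hi : ∀ e e', κ e = κ e' → γ e = γ e' → e = e')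
    (hT : Mx ρ κ γ T) (hF : Fr ρ κ A B T) {a j g : ℕ}
    (ha : a + T.card + A.card = Fintype.card R)
    (hj : j + T.card + B.card = Fintype.card K)
    (hg : ∀ (r : R) (T' : Finset E), Rc ρ κ γ A B T T' → r ∉ A → r ∉ T'.image ρ →
      g ≤ (T' \ core ρ κ γ (insert r A) B T').card) :
    (a + (T \ core ρ κ γ A B T).card) * (j + g) ≤
      (j + (T \ core ρ κ γ A B T).card) * (T \ core ρ κ γ A B T).card := by
  choose ed hed1 hed2 using He
  rw [← card_rows hT.1 hF ha, ← card_cols hT.1 hF hj]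
  refine card_mul_le_card_mul
    (fun r c => γ (ed r c) ∈ T.image γ \ (core ρ κ γ A B T).image γ) ?_ ?_
  · intro r hr
    have hr' : r ∉ A ∪ (core ρ κ γ A B T).image ρ := (mem_sdiff.1 hr).2
    have hrA : r ∉ A := fun h => hr' (mem_union_left _ h)
    obtain ⟨T', h1, h2⟩ := row_free hT.1 hF hr'
    obtain ⟨a1, a2, a3, _⟩ := rc_all hT.1 hF h1
    have hF' : Fr ρ κ (insert r A) B T' := by
      refine ⟨fun e he h => ?_, a2.2⟩
      rcases mem_insert.1 h with h | h
      · exact h2 (h ▸ mem_image_of_mem ρ he)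
      · exact a2.1 e he h
    have hj' : j + T'.card + B.card = Fintype.card K := by rw [a3]; exact hj
    have hcard := card_cols a1 hF' hj'
    refine le_trans (Nat.add_le_add_left (hg r T' h1 hrA h2) j) ?_
    rw [← hcard]
    refine card_le_card fun c hc => ?_
    have hc' : c ∉ B ∪ (core ρ κ γ (insert r A) B T').image κ := (mem_sdiff.1 hc).2
    have hcB : c ∉ B := fun h => hc' (mem_union_left _ h)
    obtain ⟨T'', h3, h4⟩ := col_free a1 hF' hc'
    obtain ⟨_, b2, _, _⟩ := rc_all a1 hF' h3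
    have h5 : Rc ρ κ γ A B T T'' := h1.trans (rc_mono (subset_insert _ _) (Subset.refl _) h3)
    rw [mem_bipartiteAbove, mem_sdiff, mem_union]
    refine ⟨⟨mem_univ _, ?_⟩, ?_⟩
    · rintro (h | h)
      · exact hcB h
      · obtain ⟨x, hx, hxc⟩ := mem_image.1 h
        exact h4 (hxc ▸ mem_image_of_mem κ ((mem_filter.1 hx).2 T'' h5))
    · refine col_touched hT hF h5 ?_ ?_ ?_ ?_
      · rw [hed1]
        intro h
        obtain ⟨x, hx, hxc⟩ := mem_image.1 h
        exact b2.1 x hx (hxc ▸ mem_insert_self _ _)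
      · rw [hed1]; exact hrA
      · rw [hed2]; exact h4
      · rw [hed2]; exact hcB
  · intro c _
    rw [← card_col hT.1]
    refine card_le_card_of_injOn (fun r => γ (ed r c)) ?_ ?_
    · intro r hr
      exact (mem_filter.1 (show r ∈ bipartiteBelow _ _ _ from hr)).2
    · intro r _ r' _ h
      have := Hi (ed r c) (ed r' c) (by rw [hed2, hed2]) h
      rw [← hed1 r c, this, hed1]

end Pool.Agent.RB69
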